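import Pool.Agent.LPK.Stmts

/-!
# Groups which do not span have density zero (row RNK of squad LPK)

Problem MP_37fa12_co.
-/

set_option autoImplicit false

noncomputable section

open MeasureTheory Filter Topology
open scoped RealInnerProductSpace

namespace Pool.Agent.LPK.H76

open Pool.Agent.LPK

/-- a slab in a ball -/
def SB {n : ℕ} (v : V n) (R : ℝ) : Set (V n) := {x | |⟪v, x⟫| < 1} ∩ Metric.ball (0 : V n) R

theorem sb_open {n : ℕ} (v : V n) (R : ℝ) : IsOpen (SB v R) := by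
  apply IsOpen.inter
  · exact isOpen_lt (by fun_prop) continuous_const
  · exact Metric.isOpen_ball

/-- the translates of the slab -/
def TR {n : ℕ} (v : V n) (R : ℝ) (j : ℕ) : Set (V n) :=
  (fun x => -((2 * (j : ℝ)) • v) + x) ⁻¹' SB v R

theorem tr_meas {n : ℕ} (v : V n) (R : ℝ) (j : ℕ) : MeasurableSet (TR v R j) :=
  ((sb_open v R).preimage (by fun_prop)).measurableSet

theorem tr_vol {n : ℕ} (v : V n) (R : ℝ) (j : ℕ) : volume (TR v R j) = volume (SB v R) :=
  measure_preimage_add _ _ _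

theorem tr_in {n : ℕ} (v : V n) (hv : ‖v‖ = 1) (R : ℝ) (j : ℕ) (x : V n) (h : x ∈ TR v R j) :
    |⟪v, x⟫ - 2 * j| < 1 ∧ ‖x‖ < R + 2 * j := by
  obtain ⟨h1, h2⟩ := h
  have h1' : |⟪v, -((2 * (j : ℝ)) • v) + x⟫| < 1 := h1
  have h2' : ‖-((2 * (j : ℝ)) • v) + x‖ < R := by
    have := h2
    rwa [Metric.mem_ball, dist_zero_right] at this
  constructor
  · rw [inner_add_right, inner_neg_right, inner_smul_right, real_inner_self_eq_norm_sq, hv] at h1'
    have e : ⟪v, x⟫ - 2 * j = -(2 * (j : ℝ) * 1 ^ 2) + ⟪v, x⟫ := by ring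
    rw [e]
    exact h1'
  · have e : x = (-((2 * (j : ℝ)) • v) + x) + (2 * (j : ℝ)) • v := by abel
    have h3 : ‖x‖ ≤ ‖-((2 * (j : ℝ)) • v) + x‖ + ‖(2 * (j : ℝ)) • v‖ := by
      conv_lhs => rw [e]
      exact norm_add_le _ _
    have h4 : ‖(2 * (j : ℝ)) • v‖ = 2 * j := by
      rw [norm_smul, hv, mul_one, Real.norm_eq_abs, abs_of_nonneg (by positivity)]
    linarith

theorem sb_le {n : ℕ} (v : V n) (hv : ‖v‖ = 1) (M : ℕ) (hM : 0 < M) (R : ℝ)
    (hR : 2 * (M : ℝ) ≤ R) :
    volume (SB v R) / volume (Metric.ball (0 : V n) R) ≤ (M : ENNReal)⁻¹ * ENNReal.ofReal (2 ^ n) := by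
  have hM' : (0 : ℝ) < M := by exact_mod_cast hM
  have hR0 : 0 < R := by linarith
  have h1 : volume (⋃ j ∈ Finset.range M, TR v R j) = ∑ j ∈ Finset.range M, volume (TR v R j) := by
    apply measure_biUnion_finset
    · intro i _ j _ hij
      rw [Function.onFun, Set.disjoint_left]
      intro x hi hj
      have a1 := (tr_in v hv R i x hi).1
      have a2 := (tr_in v hv R j x hj).1
      rw [abs_lt] at a1 a2
      rcases Nat.lt_or_ge i j with h | h
      · have : (i : ℝ) + 1 ≤ j := by exact_mod_cast h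
        linarith
      · have h' : j < i := lt_of_le_of_ne h (Ne.symm hij)
        have : (j : ℝ) + 1 ≤ i := by exact_mod_cast h'
        linarith
    · intro j _
      exact tr_meas v R j
  have h2 : (⋃ j ∈ Finset.range M, TR v R j) ⊆ Metric.ball (0 : V n) (2 * R) := by
    intro x hx
    simp only [Set.mem_iUnion, Finset.mem_range] at hx
    obtain ⟨j, hj, hx⟩ := hx
    have a := (tr_in v hv R j x hx).2
    have hj' : (j : ℝ) ≤ M := by exact_mod_cast hj.le
    rw [Metric.mem_ball, dist_zero_right]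
    linarith
  have h3 : (M : ENNReal) * volume (SB v R) ≤ volume (Metric.ball (0 : V n) (2 * R)) := by
    have h4 := measure_mono (μ := volume) h2
    rw [h1] at h4
    simp only [tr_vol, Finset.sum_const, Finset.card_range, nsmul_eq_mul] at h4
    exact h4
  have hfr : Module.finrank ℝ (V n) = n := finrank_euclideanSpace_fin
  have h5 : volume (Metric.ball (0 : V n) (2 * R)) =
      ENNReal.ofReal (2 ^ n) * volume (Metric.ball (0 : V n) R) := by
    rw [Measure.addHaar_ball_of_pos volume (0 : V n) (by linarith : 0 < 2 * R),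
      Measure.addHaar_ball_of_pos volume (0 : V n) hR0, hfr, mul_pow,
      ENNReal.ofReal_mul (by positivity), mul_assoc]
  rw [h5] at h3
  apply ENNReal.div_le_of_le_mul
  have hM1 : (M : ENNReal) ≠ 0 := by
    simp only [ne_eq, Nat.cast_eq_zero]
    omega
  have hM2 : (M : ENNReal) ≠ ⊤ := ENNReal.natCast_ne_top M
  calc volume (SB v R) = (M : ENNReal)⁻¹ * ((M : ENNReal) * volume (SB v R)) := by
        rw [← mul_assoc, ENNReal.inv_mul_cancel hM1 hM2, one_mul]
    _ ≤ (M : ENNReal)⁻¹ * (ENNReal.ofReal (2 ^ n) * volume (Metric.ball (0 : V n) R)) := by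
        gcongr
    _ = _ := by rw [mul_assoc]

theorem rnk : RnkStmt := by
  intro n L _ hspan
  obtain ⟨v, hv, hv1⟩ : ∃ v : V n, (∀ x ∈ (L : Set (V n)), ⟪v, x⟫ = 0) ∧ ‖v‖ = 1 := by
    have h1 : (Submodule.span ℝ (L : Set (V n)))ᗮ ≠ ⊥ := fun h =>
      hspan ((Submodule.orthogonal_eq_bot_iff).1 h)
    obtain ⟨u, hu, hu0⟩ := Submodule.exists_mem_ne_zero_of_ne_bot h1
    refine ⟨(‖u‖⁻¹) • u, ?_, ?_⟩
    · intro x hx
      rw [inner_smul_left, Submodule.inner_left_of_mem_orthogonal (Submodule.subset_span hx) hu,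
        mul_zero]
    · rw [norm_smul, norm_inv, norm_norm, inv_mul_cancel₀ (norm_ne_zero_iff.2 hu0)]
  have hsub : ∀ R : ℝ, (⋃ x ∈ (L : Set (V n)), Metric.ball x 1) ∩ Metric.ball (0 : V n) R ⊆
      SB v R := by
    intro R y hy
    refine ⟨?_, hy.2⟩
    have hy1 := hy.1
    simp only [Set.mem_iUnion] at hy1
    obtain ⟨x, hx, hy2⟩ := hy1
    show |⟪v, y⟫| < 1
    have e : ⟪v, y⟫ = ⟪v, y - x⟫ := by rw [inner_sub_right, hv x hx, sub_zero]
    rw [e]
    calc |⟪v, y - x⟫| ≤ ‖v‖ * ‖y - x‖ := abs_real_inner_le_norm v (y - x)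
      _ = ‖y - x‖ := by rw [hv1, one_mul]
      _ < 1 := by rwa [Metric.mem_ball, dist_eq_norm] at hy2
  have key : ∀ M : ℕ, Filter.limsup (fun R : ℝ => volume ((⋃ x ∈ (L : Set (V n)), Metric.ball x 1) ∩
      Metric.ball (0 : V n) R) / volume (Metric.ball (0 : V n) R)) atTop ≤
      ((M : ENNReal))⁻¹ * ENNReal.ofReal (2 ^ n) := by
    intro M
    rcases Nat.eq_zero_or_pos M with rfl | hM
    · have : ((0 : ℕ) : ENNReal)⁻¹ * ENNReal.ofReal (2 ^ n) = ⊤ := by
        rw [Nat.cast_zero, ENNReal.inv_zero]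
        apply ENNReal.top_mul
        simp
      rw [this]
      exact le_top
    · apply Filter.limsup_le_of_le
      · isBoundedDefault
      · filter_upwards [Filter.eventually_ge_atTop (2 * (M : ℝ))] with R hR
        refine le_trans ?_ (sb_le v hv1 M hM R hR)
        exact ENNReal.div_le_div_right (measure_mono (hsub R)) _
  have hlim : Tendsto (fun M : ℕ => ((M : ENNReal))⁻¹ * ENNReal.ofReal (2 ^ n)) atTop
      (𝓝 (0 * ENNReal.ofReal (2 ^ n))) :=
    ENNReal.Tendsto.mul_const ENNReal.tendsto_inv_nat_nhds_zero (Or.inr ENNReal.ofReal_ne_top)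
  rw [zero_mul] at hlim
  exact le_antisymm (ge_of_tendsto' hlim key) zero_le

end Pool.Agent.LPK.H76
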